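import Pool.Agent.H21.CST.S1

/-!
# CST, rows FUL, TCH, CRD
-/

set_option autoImplicit false

namespace Pool.CST

open MvPolynomial

/-- FUL: a long row gives a simplex. -/
theorem t_ful (h : UNIStmt) : FULStmt := by
  intro δ m Z a hZ ha hm q hq hv
  classical
  set p : Fin (δ + 1) → ℕ := Function.update a (Fin.last δ) 0 with hp
  have hpc : ∀ j : Fin δ, p j.castSucc = a j.castSucc := fun j => by
    rw [hp, Function.update_of_ne (Fin.castSucc_lt_last j).ne]
  have hpl : p (Fin.last δ) = 0 := by rw [hp, Function.update_self]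
  refine h (δ + 1) m p q hq fun v hvm => ?_
  have hs : ∑ i, v i < m := (Finset.mem_filter.1 hvm).2
  have hvl : v (Fin.last δ) ≤ ∑ i, v i :=
    Finset.single_le_sum (f := v) (fun i _ => Nat.zero_le _) (Finset.mem_univ _)
  refine hv (p + v) (hZ a ha (p + v) (fun j => ?_) ?_ ?_) ?_
  · simp only [Pi.add_apply, hpc]; omega
  · simp only [Pi.add_apply, hpl]; omega
  · have h1 : ∑ i, (p + v) i = ∑ i, p i + ∑ i, v i := by
      simp only [Pi.add_apply, Finset.sum_add_distrib]
    have h2 : ∑ i, p i = ∑ j : Fin δ, a j.castSucc := by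
      rw [Fin.sum_univ_castSucc, hpl, add_zero]
      exact Finset.sum_congr rfl fun j _ => hpc j
    have h3 : ∑ i, a i = ∑ j : Fin δ, a j.castSucc + a (Fin.last δ) := Fin.sum_univ_castSucc _
    rw [h1, h2, h3]; omega
  · have h0 : v 0 ≤ ∑ i, v i :=
      Finset.single_le_sum (f := v) (fun i _ => Nat.zero_le _) (Finset.mem_univ _)
    have hp0 : p 0 ≤ a 0 := by
      rcases eq_or_ne (0 : Fin (δ + 1)) (Fin.last δ) with h' | h'
      · rw [h', hpl]; exact Nat.zero_le _
      · rw [hp, Function.update_of_ne h']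
    simp only [Pi.add_apply]; omega

/-- TCH: slices far above a long row are not touched. -/
theorem t_tch (h : UNIStmt) : TCHStmt := by
  intro δ m Z a u hδ hZ ha hm hu hau
  classical
  obtain ⟨δ', rfl⟩ : ∃ δ', δ = δ' + 1 := ⟨δ - 1, by omega⟩
  refine Finset.mem_filter.2 ⟨hu, fun q hq hv => ?_⟩
  have : q = 0 := t_ful h (δ' + 1) m Z a hZ ha hm q hq fun b hb hb0 =>
    hv b hb (Or.inl (by omega))
  rw [this, ev, map_zero]

/-- CRD: the number of exponents in the simplex. -/
theorem t_crd : CRDStmt := by
  intro p D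
  classical
  have h1 : (Sx (p + 1) (D + 1)).card =
      ((Finset.univ : Finset (Fin (p + 2))).finsuppAntidiag D).card := by
    refine Finset.card_bij'
      (fun a _ => Finsupp.equivFunOnFinite.symm (Fin.cons (D - ∑ i, a i) a : Fin (p + 2) → ℕ))
      (fun b _ => Fin.tail (⇑b : Fin (p + 2) → ℕ)) ?_ ?_ ?_ ?_
    · intro a ha
      have hs : ∑ i, a i < D + 1 := (Finset.mem_filter.1 ha).2
      rw [Finset.mem_finsuppAntidiag]
      refine ⟨?_, Finset.subset_univ _⟩
      simp only [Finsupp.equivFunOnFinite_symm_apply_apply]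
      rw [Fin.sum_univ_succ]
      simp only [Fin.cons_zero, Fin.cons_succ]
      omega
    · intro b hb
      rw [Finset.mem_finsuppAntidiag] at hb
      have hs := hb.1
      rw [Fin.sum_univ_succ] at hs
      refine Finset.mem_filter.2 ⟨Fintype.mem_piFinset.2 fun i => ?_, ?_⟩
      · have : b i.succ ≤ ∑ i : Fin (p + 1), b i.succ :=
          Finset.single_le_sum (f := fun i : Fin (p + 1) => b i.succ)
            (fun i _ => Nat.zero_le _) (Finset.mem_univ _)
        rw [Finset.mem_range, Fin.tail]; omega
      · simp only [Fin.tail]; omega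
    · intro a ha
      funext i
      simp [Fin.tail]
    · intro b hb
      rw [Finset.mem_finsuppAntidiag] at hb
      have hs := hb.1
      rw [Fin.sum_univ_succ] at hs
      have : D - ∑ i, Fin.tail (⇑b : Fin (p + 2) → ℕ) i = b 0 := by
        simp only [Fin.tail]; omega
      ext i
      simp only [Finsupp.equivFunOnFinite_symm_apply_apply]
      rw [this]
      refine Fin.cases ?_ (fun j => ?_) i
      · rw [Fin.cons_zero]
      · rw [Fin.cons_succ, Fin.tail]
  rw [h1, Finset.card_finsuppAntidiag_nat_eq_choose, Finset.card_univ, Fintype.card_fin]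
  have : p + 2 + D - 1 = D + (p + 1) := by omega
  rw [this]
  exact Nat.choose_symm_add

end Pool.CST
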